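import Pool.Agent.H533HB.Fin

/-!
# The critical exponent of `H`-bootstrap percolation is not computable

`graphOf c` is the finite graph coded by `c`, `pc H n` is the critical probability of
`H`-bootstrap percolation on `n` vertices (both in `Pool/Agent/H533HB/Defs.lean`).
-/

set_option autoImplicit false

namespace Pool.Agent.Results.MP_6d173c_pr.ExponentNotComputable

open Filter Pool.Agent.H533HB

/-- the upper limit of `log p_c(n,H) / log n` for the graph `H` coded by `c` -/
noncomputable def upperExp (c : ℕ × List (ℕ × ℕ)) : EReal :=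
  limsup (fun n : ℕ => ((Real.log (pc (graphOf c) n) / Real.log n : ℝ) : EReal)) atTop

/-- the lower limit of `log p_c(n,H) / log n` for the graph `H` coded by `c` -/
noncomputable def lowerExp (c : ℕ × List (ℕ × ℕ)) : EReal :=
  liminf (fun n : ℕ => ((Real.log (pc (graphOf c) n) / Real.log n : ℝ) : EReal)) atTop

/-- There is a computable sequence `c 0, c 1, ...` of (codes of) connected finite graphs of
minimum degree at least three such that, for each of them, either the upper limit of
`log p_c / log n` is less than `-1/16` or the lower limit is at least `-1/16`, and no algorithm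
decides, given `k`, which alternative holds for `c k`. In particular no computable function
assigns to every such graph a rational number between the lower and the upper limit. -/
theorem result :
    ∃ c : ℕ → ℕ × List (ℕ × ℕ), Computable c ∧
      (∀ k, (graphOf (c k)).Connected ∧ ∀ x, 3 ≤ ((graphOf (c k)).neighborSet x).ncard) ∧
      (∀ k n, 2 ≤ n → 0 < pc (graphOf (c k)) n ∧ pc (graphOf (c k)) n ≤ 1) ∧
      (∀ k, upperExp (c k) < ((-1 / 16 : ℝ) : EReal) ∨
        ((-1 / 16 : ℝ) : EReal) ≤ lowerExp (c k)) ∧
      (¬ ComputablePred fun k => upperExp (c k) < ((-1 / 16 : ℝ) : EReal)) ∧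
      ¬ ∃ f : ℕ × List (ℕ × ℕ) → ℕ × ℕ, Computable f ∧ ∀ k,
        lowerExp (c k) ≤ ((-((f (c k)).1 / ((f (c k)).2 + 1) : ℝ) : ℝ) : EReal) ∧
        ((-((f (c k)).1 / ((f (c k)).2 + 1) : ℝ) : ℝ) : EReal) ≤ upperExp (c k) := by
  obtain ⟨c, hc, hgood, h2, h3⟩ := family
  refine ⟨c, hc, hgood, fun k => pc_pos_of_good (c k) (hgood k), h2, h3, ?_⟩
  rintro ⟨f, hf, hfs⟩
  exact no_function hc h2 h3 f hf hfs

end Pool.Agent.Results.MP_6d173c_pr.ExponentNotComputable
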